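import Pool.Agent.Q193.LS.Pos
import Pool.Agent.Q193.LS.Neg

/-!
# A closed unital subalgebra of a locally Stein algebra that is not locally Stein

`A` is the product of the disc algebra and `C[0,1]`, and `B` the set of the pairs `(f 0, f)` with
`f` in `C[0,1]`.
-/

set_option autoImplicit false

namespace Pool.Agent.Results.MP_591444_an.SubalgebraNotLocallyStein

open Pool.Agent.Q193.LS

/-- the embedding of `C[0,1]` -/
noncomputable def em : C(unitInterval, ℂ) →ₐ[ℂ] AA :=
  AlgHom.prod ((Algebra.ofId ℂ DA).comp (ContinuousMap.evalAlgHom ℂ ℂ 0))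
    (AlgHom.id ℂ C(unitInterval, ℂ))

lemma em_snd (f : C(unitInterval, ℂ)) : (em f).2 = f := rfl

lemma em_fst (f : C(unitInterval, ℂ)) : (em f).1 = algebraMap ℂ DA (f 0) := rfl

/-- the subalgebra -/
noncomputable def BB : Subalgebra ℂ AA := em.range

lemma mem_BB (x : AA) : x ∈ BB ↔ x.1 = algebraMap ℂ DA (x.2 0) := by
  constructor
  · rintro ⟨f, rfl⟩
    rfl
  · intro h
    exact ⟨x.2, Prod.ext (by rw [h]; rfl) rfl⟩

lemma closed_BB : IsClosed (BB : Set AA) := by
  have : (BB : Set AA) = {x | x.1 = algebraMap ℂ DA (x.2 0)} := by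
    ext x
    exact mem_BB x
  rw [this]
  exact isClosed_eq continuous_fst ((continuous_algebraMap ℂ DA).comp
    ((ContinuousEvalConst.continuous_eval_const (0 : unitInterval)).comp continuous_snd))

/-- the isomorphism of the subalgebra with `C[0,1]` -/
noncomputable def iso : C(unitInterval, ℂ) ≃ₐ[ℂ] BB :=
  AlgEquiv.ofLeftInverse (g := Prod.snd) (f := em) fun f => em_snd f

lemma iso_coe (f : C(unitInterval, ℂ)) : (iso f : AA) = em f := rfl

lemma iso_symm (b : BB) : iso.symm b = b.1.2 := rfl

lemma iso_cont : Continuous iso := by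
  apply Continuous.subtype_mk
  exact ((continuous_algebraMap ℂ DA).comp
    (ContinuousEvalConst.continuous_eval_const (0 : unitInterval))).prodMk continuous_id

lemma iso_symm_cont : Continuous iso.symm := continuous_snd.comp continuous_subtype_val

/-- There are a locally Stein algebra `A` and a closed unital subalgebra `B` of `A` (which is then
a Fréchet algebra) such that `B` is not locally Stein. -/
theorem result :
    ∃ (A : Type) (_ : CommRing A) (_ : Algebra ℂ A) (_ : TopologicalSpace A)
      (B : Subalgebra ℂ A), IsLocallyStein A ∧ IsClosed (B : Set A) ∧ IsFrechet B ∧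
        ¬ IsLocallyStein B := by
  have : CompleteSpace BB := closed_BB.completeSpace_coe
  refine ⟨AA, inferInstance, inferInstance, inferInstance, BB, locallyStein_AA, closed_BB,
    isFrechet_of_normed BB, not_locallyStein iso iso_cont iso_symm_cont⟩

end Pool.Agent.Results.MP_591444_an.SubalgebraNotLocallyStein
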